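import Pool.Agent.X179.PI.AreaMain

/-!
# Projective involutions on tangent lines: foliations by area curves

`γ = (x, y)` is a closed strictly convex curve, parametrised by the angle `θ` of its outer unit normal
`(cos θ, sin θ)`, with positive radius of curvature `ρ` of class `C³` (`Oval`). The leaves are the area
curves of `γ` (`areaCurve`): for `A > 0` the set of the points `z` outside `γ` such that the region between
the two tangent segments from `z` to `γ` and the curve `γ` has area `A` (`capArea`, by Green's formula), in
other words such that the convex hull of `γ` and `z` has area larger by `A` than the disc bounded by `γ`: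
the boundaries of the illumination bodies of this disc. They foliate the exterior of `γ`. Hypothesis: for
every `t` the involution which the leaves define on the tangent line at `γ(t)`, near `γ(t)`, is projective
(`ProjectiveAt`).

Conclusion: `γ` is an ellipse and the leaves are homothetic ellipses with the same centre; they lie in one
pencil of conics.

The proof: comparing the expansions of the two sides at `γ(t)` gives the differential equation
`9 ρ² ρ''' = - 36 ρ² ρ' + 45 ρ ρ' ρ'' - 40 ρ'³`, which says that `ρ ^ (-2/3)` is a combination of `1`,
`cos 2θ` and `sin 2θ`.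
-/

namespace Pool.Agent.Results.MP_ae5b4e_an.AreaLeaves

open Pool.Agent.X179.PI

theorem result (x y ρ : ℝ → ℝ) (oval : Oval x y ρ)
    (proj : ∀ t, ProjectiveAt x y (areaCurve x y ρ) t) :
    ∃ u v a b c : ℝ, 0 < a ∧ b ^ 2 < a * c ∧
      (∀ z : ℝ × ℝ, z ∈ Set.range (fun θ => (x θ, y θ)) ↔
        a * (z.1 - u) ^ 2 + 2 * b * (z.1 - u) * (z.2 - v) + c * (z.2 - v) ^ 2 = 1) ∧
      ∀ A > 0, ∃ k > 1, ∀ z : ℝ × ℝ, z ∈ areaCurve x y ρ A ↔
        a * (z.1 - u) ^ 2 + 2 * b * (z.1 - u) * (z.2 - v) + c * (z.2 - v) ^ 2 = k :=
  area_main oval proj

end Pool.Agent.Results.MP_ae5b4e_an.AreaLeaves
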