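import Pool.Agent.X179.PI.Iso

/-!
# Projective involutions on tangent lines: foliations by isoptic curves

`γ = (x, y)` is a closed strictly convex curve, parametrised by the angle `θ` of its outer unit normal
`(cos θ, sin θ)`, with positive radius of curvature `ρ` of class `C³` (`Oval`). The leaves are its isoptic
curves (`isopticCurve`): for `0 < τ < π` the set of the intersection points of the tangent lines at `γ(θ)`
and `γ(θ + τ)`, that is, of the points from which `γ` is seen under the angle `π - τ`. They foliate the
whole exterior of `γ`, and tend to `γ` as `τ → 0`. Hypothesis: for every `t` the involution which the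
leaves define on the tangent line at `γ(t)`, near `γ(t)`, is projective (`ProjectiveAt`).

Conclusion: `γ` is a circle, and the leaves are the concentric circles; they lie in one pencil of conics.

The proof: comparing the expansions of the two sides at `γ(t)` gives the differential equation
`9 ρ² ρ''' = 9 ρ² ρ' + 30 ρ ρ' ρ'' - 20 ρ'³`, which has a first integral; its values at the maximum and at
the minimum of `ρ` are only compatible if `ρ` is constant.
-/

namespace Pool.Agent.Results.MP_ae5b4e_an.IsopticLeaves

open Pool.Agent.X179.PI

theorem result (x y ρ : ℝ → ℝ) (oval : Oval x y ρ)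
    (proj : ∀ t, ProjectiveAt x y (isopticCurve x y) t) :
    ∃ u v R : ℝ, 0 < R ∧ (∀ θ, x θ = u + R * Real.cos θ ∧ y θ = v + R * Real.sin θ) ∧
      ∀ τ, 0 < τ → τ < Real.pi → isopticCurve x y τ =
        {z | (z.1 - u) ^ 2 + (z.2 - v) ^ 2 = (R / Real.cos (τ / 2)) ^ 2} :=
  isoptic_main oval proj

end Pool.Agent.Results.MP_ae5b4e_an.IsopticLeaves
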