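import Pool.Agent.X179.PI.Par

/-!
# Projective involutions on tangent lines: foliations by parallel curves

`γ = (x, y)` is a closed strictly convex curve, parametrised by the angle `θ` of its outer unit normal
`n(θ) = (cos θ, sin θ)`, with positive radius of curvature `ρ` of class `C³` (`Oval`). The leaves are the
outer parallel curves `{γ(θ) + r n(θ)}`, `r > 0` (`parallelCurve`). On the tangent line of `γ` at `γ(t)`
the leaves define an involution near `γ(t)`, exchanging the two points of the line on the same leaf.
Hypothesis: for every `t` this involution is projective (`ProjectiveAt`).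

Conclusion: `γ` is a circle, and the leaves are the concentric circles; they lie in one pencil of conics.

The proof: comparing the expansions of the two sides at `γ(t)` up to the fifth order gives the
differential equation `9 ρ² ρ''' = 99 ρ² ρ' + 60 ρ ρ' ρ'' - 65 ρ'³`, which has a first integral; its
values at the maximum and at the minimum of `ρ` are only compatible if `ρ` is constant.
-/

namespace Pool.Agent.Results.MP_ae5b4e_an.ParallelLeaves

open Pool.Agent.X179.PI

theorem result (x y ρ : ℝ → ℝ) (oval : Oval x y ρ)
    (proj : ∀ t, ProjectiveAt x y (parallelCurve x y) t) :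
    ∃ u v R : ℝ, 0 < R ∧ (∀ θ, x θ = u + R * Real.cos θ ∧ y θ = v + R * Real.sin θ) ∧
      ∀ r > 0, parallelCurve x y r = {z | (z.1 - u) ^ 2 + (z.2 - v) ^ 2 = (R + r) ^ 2} :=
  parallel_main oval proj

end Pool.Agent.Results.MP_ae5b4e_an.ParallelLeaves
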