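import Pool.Agent.X179.PI.Str

/-!
# Projective involutions on tangent lines: foliations by string curves

`γ = (x, y)` is a closed strictly convex curve, parametrised by the angle `θ` of its outer unit normal
`(cos θ, sin θ)`, with positive radius of curvature `ρ` of class `C³` (`Oval`). The leaves are the string
curves of `γ` (`stringCurve`): for `ℓ > 0` the set of the points outside `γ` whose two tangent segments to
`γ` are together longer by `ℓ` than the arc of `γ` between their points of contact, that is, the curve
drawn by a pencil stretching a closed string around `γ` (`γ` is a caustic of the billiard inside each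
leaf). They foliate the exterior of `γ`. Hypothesis: for every `t` the involution which the leaves define
on the tangent line at `γ(t)`, near `γ(t)`, is projective (`ProjectiveAt`).

Conclusion: `γ` is a circle, and the leaves are the concentric circles; they lie in one pencil of conics.

The proof: comparing the expansions of the two sides at `γ(t)` gives the differential equation
`18 ρ² ρ''' = 63 ρ² ρ' + 90 ρ ρ' ρ'' - 80 ρ'³`, which has a first integral; its values at the maximum and
at the minimum of `ρ` are only compatible if `ρ` is constant.
-/

namespace Pool.Agent.Results.MP_ae5b4e_an.StringLeaves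

open Pool.Agent.X179.PI

theorem result (x y ρ : ℝ → ℝ) (oval : Oval x y ρ)
    (proj : ∀ t, ProjectiveAt x y (stringCurve x y ρ) t) :
    ∃ u v R : ℝ, 0 < R ∧ (∀ θ, x θ = u + R * Real.cos θ ∧ y θ = v + R * Real.sin θ) ∧
      ∀ ℓ > 0, ∃ R' > R, stringCurve x y ρ ℓ = {z | (z.1 - u) ^ 2 + (z.2 - v) ^ 2 = R' ^ 2} :=
  string_main oval proj

end Pool.Agent.Results.MP_ae5b4e_an.StringLeaves
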